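import Pool.Agent.J4H85.SG2

set_option autoImplicit false

namespace Pool.Agent.Results.MP_080bf7_an.SubgaussianIff

open MeasureTheory

/-- The character `γ_n(t) = exp (2πi ∑_k t_k n_k / q)` of the compact group `G = (ℤ/q)^ℕ`
(functions `ℕ → ZMod q`), where `n` is an element of the dual group, the finitely supported
sequences `ℕ →₀ ZMod q`. The residues `t_k`, `n_k` are represented in `{0, ..., q - 1}`. -/
noncomputable def char (q : ℕ) (n : ℕ →₀ ZMod q) (t : ℕ → ZMod q) : ℂ :=
  Complex.exp (2 * Real.pi * Complex.I * (∑ k ∈ n.support, ((t k).val * (n k).val : ℂ)) / q)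

/-- `‖f‖_{ψ₂} = inf {c > 0 : ∫ exp (|f|² / c²) dm ≤ e}` (with value `∞` if there is no such `c`). -/
noncomputable def psi2 {q : ℕ} (m : Measure (ℕ → ZMod q)) (f : (ℕ → ZMod q) → ℂ) : ENNReal :=
  ⨅ (c : ℝ) (_ : 0 < c) (_ : ∫⁻ t, ENNReal.ofReal (Real.exp (‖f t‖ ^ 2 / c ^ 2)) ∂m ≤
    ENNReal.ofReal (Real.exp 1)), ENNReal.ofReal c

/-- `Λ` is subgaussian: for some constant `C`, `‖∑ a_n γ_n‖_{ψ₂} ≤ C (∑ |a_n|²)^{1/2}` for all
finitely supported families of complex coefficients `(a_n)_{n ∈ Λ}`. -/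
def Subgaussian {q : ℕ} (m : Measure (ℕ → ZMod q)) (Λ : Set (ℕ →₀ ZMod q)) : Prop :=
  ∃ C : ℝ, ∀ (A : Finset (ℕ →₀ ZMod q)) (a : (ℕ →₀ ZMod q) → ℂ), (A : Set (ℕ →₀ ZMod q)) ⊆ Λ →
    psi2 m (fun t => ∑ n ∈ A, a n * char q n t) ≤
      ENNReal.ofReal (C * Real.sqrt (∑ n ∈ A, ‖a n‖ ^ 2))

/-- `Λ` is quasi-independent: a relation `∑_{λ ∈ A} ξ_λ λ = 0` with `A ⊆ Λ` finite and
`ξ_λ ∈ {-1, 0, 1}` is trivial. -/
def QuasiIndependent {q : ℕ} (Λ : Set (ℕ →₀ ZMod q)) : Prop :=
  ∀ A : Finset (ℕ →₀ ZMod q), (A : Set (ℕ →₀ ZMod q)) ⊆ Λ → ∀ ξ : (ℕ →₀ ZMod q) → ℤ,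
    (∀ l ∈ A, ξ l = -1 ∨ ξ l = 0 ∨ ξ l = 1) → ∑ l ∈ A, ξ l • l = 0 → ∀ l ∈ A, ξ l = 0

theorem char_eq {q : ℕ} [NeZero q] (n : ℕ →₀ ZMod q) (t : ℕ → ZMod q) :
    char q n t = ZMod.stdAddChar (n.sum fun k a => t k * a) := by
  have h : (n.sum fun k a => t k * a) =
      (((∑ k ∈ n.support, (t k).val * (n k).val : ℕ) : ℤ) : ZMod q) := by
    rw [Finsupp.sum]
    push_cast
    apply Finset.sum_congr rfl
    intro k _
    rw [ZMod.natCast_zmod_val, ZMod.natCast_zmod_val]
  rw [h, ZMod.stdAddChar_coe, char]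
  push_cast
  rfl

theorem charSys {q : ℕ} [NeZero q] (m : Measure (ℕ → ZMod q)) [IsProbabilityMeasure m]
    [m.IsAddLeftInvariant] : Pool.Agent.J4H85.SG.CharSys m (fun n t => char q n t) where
  zero := fun t => by simp [char]
  add := fun a b t => by
    rw [char_eq, char_eq, char_eq, ← AddChar.map_add_eq_mul, Finsupp.sum_add_index']
    · intro k; rw [mul_zero]
    · intro k x y; rw [mul_add]
  norm := fun a t => by
    rw [char_eq, AddChar.norm_apply]
  meas := fun a => by
    have : (fun t => char q a t) = fun t : ℕ → ZMod q => Complex.exp (2 * Real.pi * Complex.I *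
      (∑ k ∈ a.support, ((t k).val * (a k).val : ℂ)) / q) := rfl
    rw [this]
    apply Complex.measurable_exp.comp
    apply Measurable.div_const
    apply Measurable.const_mul
    apply Finset.measurable_fun_sum
    intro k _
    apply Measurable.mul_const
    exact (measurable_from_top (f := fun z : ZMod q => (z.val : ℂ))).comp (measurable_pi_apply k)
  orth := fun a ha => by
    obtain ⟨k, hk⟩ : ∃ k, a k ≠ 0 := by
      by_contra hcon
      push Not at hcon
      exact ha (Finsupp.ext hcon)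
    let s : ℕ → ZMod q := Pi.single k 1
    have hmul : ∀ t, char q a (s + t) = ZMod.stdAddChar (a k) * char q a t := by
      intro t
      rw [char_eq, char_eq, ← AddChar.map_add_eq_mul]
      congr 1
      have : (a.sum fun j x => (s + t) j * x) = (a.sum fun j x => s j * x) +
          a.sum fun j x => t j * x := by
        rw [← Finsupp.sum_add]
        apply Finsupp.sum_congr
        intro j _
        rw [Pi.add_apply, add_mul]
      rw [this]
      congr 1
      rw [Finsupp.sum, Finset.sum_eq_single k]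
      · simp [s]
      · intro j _ hj
        simp [s, Pi.single_eq_of_ne hj]
      · intro hk'
        simp only [Finsupp.mem_support_iff, not_not] at hk'
        exact absurd hk' hk
    have h1 : ∫ t, char q a t ∂m = ZMod.stdAddChar (a k) * ∫ t, char q a t ∂m := by
      rw [← integral_const_mul]
      rw [← integral_add_left_eq_self (fun t => char q a t) s]
      simp only [hmul]
    have h2 : (ZMod.stdAddChar (a k) : ℂ) ≠ 1 := by
      intro h3
      apply hk
      apply ZMod.injective_stdAddChar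
      rw [h3, AddChar.map_zero_eq_one]
    have h3 : (1 - ZMod.stdAddChar (a k)) * ∫ t, char q a t ∂m = 0 := by
      rw [sub_mul, one_mul, sub_eq_zero]
      exact h1
    rcases mul_eq_zero.mp h3 with h | h
    · exact absurd (sub_eq_zero.mp h).symm h2
    · exact h

/-- For every `q ≥ 1` (in particular for `q = 4`): a set `Λ ⊆ Ĝ ∖ {0}` of characters of
`G = (ℤ/q)^ℕ` is subgaussian if and only if it is a finite union of quasi-independent sets.
Here `m` is the normalised Haar measure of `G`, that is, the translation invariant probability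
measure on (the product = Borel `σ`-algebra of) `G`. -/
theorem result (q : ℕ) (hq : 0 < q) (m : Measure (ℕ → ZMod q)) [IsProbabilityMeasure m]
    [m.IsAddLeftInvariant] (Λ : Set (ℕ →₀ ZMod q)) (h0 : 0 ∉ Λ) :
    Subgaussian m Λ ↔ ∃ (K : ℕ) (Q : Fin K → Set (ℕ →₀ ZMod q)),
      (∀ i, QuasiIndependent (Q i)) ∧ Λ = ⋃ i, Q i := by
  classical
  have : NeZero q := ⟨hq.ne'⟩
  exact Pool.Agent.J4H85.SG.subG_iff (charSys m) q hq Λ h0 (fun x _ => by
    ext k
    rw [Finsupp.smul_apply, nsmul_eq_mul, CharP.cast_eq_zero, zero_mul, Finsupp.zero_apply])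

end Pool.Agent.Results.MP_080bf7_an.SubgaussianIff
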